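import Pool.Agent.Helper73.DC.St3

/-!
Module F1 of project DC: flattening of the level language.
-/

set_option autoImplicit false

namespace Pool.Agent.Helper71.DC

open Pool.Agent.Helper73.DC
open Finset
open scoped Classical

private theorem runs_add (f : ℕ → FS → FS) (a n k : ℕ) (s : FS) :
    runs f a (n + k) s = runs f (a + n) k (runs f a n s) := by
  induction k with
  | zero => rfl
  | succ k ih =>
    show f (a + (n + k)) (runs f a (n + k) s) = f (a + n + k) (runs f (a + n) k (runs f a n s))
    rw [ih, ← Nat.add_assoc]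

private theorem runs_congr (f g : ℕ → FS → FS) (a b n : ℕ) (s : FS)
    (h : ∀ i, i < n → ∀ s, f (a + i) s = g (b + i) s) : runs f a n s = runs g b n s := by
  induction n with
  | zero => rfl
  | succ n ih =>
    show f (a + n) (runs f a n s) = g (b + n) (runs g b n s)
    rw [ih (fun i hi => h i (by omega)), h n (by omega)]

/-- the claim for level `r` -/
private def ClA {α : Type} (w : List α) (p : ℕ → ℕ) (m : ℕ) (bs : VF α) (body : Cmd α)
    (r : ℕ) : Prop :=
  ∀ (x : ℕ) (s : FS), s.1 r = ini x →
    (runs (MU w p m bs body r) 0 (Tot w p body r) s).1 r 1 = (VV w p m bs body r x s.2).1 ∧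
    (runs (MU w p m bs body r) 0 (Tot w p body r) s).2 = (VV w p m bs body r x s.2).2 ∧
    ∀ q, r < q → (runs (MU w p m bs body r) 0 (Tot w p body r) s).1 q = s.1 q

/-- the claim for a command -/
private def ClB (r : ℕ) (n : ℕ) (f : ℕ → FS → FS)
    (e : (ℕ → ℕ) × ℕ → (ℕ → ℕ) × ℕ) : Prop :=
  ∀ s : FS, (runs f 0 n s).1 (r + 1) = (e (s.1 (r + 1), s.2)).1 ∧
    (runs f 0 n s).2 = (e (s.1 (r + 1), s.2)).2 ∧
    ∀ q, r + 1 < q → (runs f 0 n s).1 q = s.1 q

private theorem clB {α : Type} (w : List α) (p : ℕ → ℕ) (m : ℕ) (bs : VF α) (body : Cmd α)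
    (r : ℕ) (hA : ClA w p m bs body r) (c : Cmd α) :
    ClB r (tm w p (Tot w p body r) c)
      (mu w p m (Tot w p body r) (MU w p m bs body r) (r + 1) c)
      (sem w p m (VV w p m bs body r) (r + 1) c) := by
  induction c with
  | asg i F =>
    intro s
    have e : runs (mu w p m (Tot w p body r) (MU w p m bs body r) (r + 1) (Cmd.asg i F)) 0
        (tm w p (Tot w p body r) (Cmd.asg i F)) s =
        setL s (r + 1) (Function.update (s.1 (r + 1)) i
          (F w (ctx m (r + 1) s.2 (s.1 (r + 1)) p) % p 0)) := rfl
    rw [e]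
    refine ⟨?_, rfl, ?_⟩
    · simp [setL, sem]
    · intro q hq
      simp [setL, Function.update_of_ne (show q ≠ r + 1 by omega)]
  | glb F =>
    intro s
    exact ⟨rfl, rfl, fun _ _ => rfl⟩
  | seq c d ihc ihd =>
    intro s
    set tc := tm w p (Tot w p body r) c with htc
    set td := tm w p (Tot w p body r) d with htd
    have e : runs (mu w p m (Tot w p body r) (MU w p m bs body r) (r + 1) (Cmd.seq c d)) 0
        (tm w p (Tot w p body r) (Cmd.seq c d)) s =
        runs (mu w p m (Tot w p body r) (MU w p m bs body r) (r + 1) d) 0 td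
          (runs (mu w p m (Tot w p body r) (MU w p m bs body r) (r + 1) c) 0 tc s) := by
      show runs (mu w p m (Tot w p body r) (MU w p m bs body r) (r + 1) (Cmd.seq c d)) 0
        (tc + td) s = _
      rw [runs_add]
      rw [runs_congr (mu w p m (Tot w p body r) (MU w p m bs body r) (r + 1) (Cmd.seq c d))
        (mu w p m (Tot w p body r) (MU w p m bs body r) (r + 1) c) 0 0 tc s]
      · apply runs_congr
        intro i hi s
        show (if 0 + tc + i < tc then _ else _) = _
        rw [if_neg (by omega)]
        have e2 : 0 + tc + i - tc = 0 + i := by omega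
        rw [e2]
      · intro i hi s
        show (if 0 + i < tc then _ else _) = _
        rw [if_pos (by omega)]
    obtain ⟨c1, c2, c3⟩ := ihc s
    set s1 := runs (mu w p m (Tot w p body r) (MU w p m bs body r) (r + 1) c) 0 tc s with hs1
    obtain ⟨d1, d2, d3⟩ := ihd s1
    rw [e]
    refine ⟨?_, ?_, ?_⟩
    · rw [d1, c1, c2]
      rfl
    · rw [d2, c1, c2]
      rfl
    · intro q hq
      rw [d3 q hq, c3 q hq]
  | rep n c ih =>
    intro s
    set tc := tm w p (Tot w p body r) c with htc
    have key : ∀ k : ℕ, ∀ s : FS,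
        (runs (mu w p m (Tot w p body r) (MU w p m bs body r) (r + 1) (Cmd.rep n c)) 0
          (k * tc) s).1 (r + 1) =
          ((sem w p m (VV w p m bs body r) (r + 1) c)^[k] (s.1 (r + 1), s.2)).1 ∧
        (runs (mu w p m (Tot w p body r) (MU w p m bs body r) (r + 1) (Cmd.rep n c)) 0
          (k * tc) s).2 =
          ((sem w p m (VV w p m bs body r) (r + 1) c)^[k] (s.1 (r + 1), s.2)).2 ∧
        ∀ q, r + 1 < q →
          (runs (mu w p m (Tot w p body r) (MU w p m bs body r) (r + 1) (Cmd.rep n c)) 0
            (k * tc) s).1 q = s.1 q := by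
      intro k
      induction k with
      | zero =>
        intro s
        rw [Nat.zero_mul]
        exact ⟨rfl, rfl, fun _ _ => rfl⟩
      | succ k ihk =>
        intro s
        obtain ⟨k1, k2, k3⟩ := ihk s
        have e : runs (mu w p m (Tot w p body r) (MU w p m bs body r) (r + 1) (Cmd.rep n c)) 0
            ((k + 1) * tc) s =
            runs (mu w p m (Tot w p body r) (MU w p m bs body r) (r + 1) c) 0 tc
              (runs (mu w p m (Tot w p body r) (MU w p m bs body r) (r + 1) (Cmd.rep n c)) 0
                (k * tc) s) := by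
          rw [Nat.succ_mul, runs_add]
          apply runs_congr
          intro i hi s
          show mu w p m (Tot w p body r) (MU w p m bs body r) (r + 1) c
            ((0 + k * tc + i) % tc) s = _
          have e2 : (0 + k * tc + i) % tc = 0 + i := by
            rw [Nat.zero_add, Nat.zero_add, Nat.mul_comm, Nat.mul_add_mod, Nat.mod_eq_of_lt hi]
          rw [e2]
        rw [e]
        set s1 := runs (mu w p m (Tot w p body r) (MU w p m bs body r) (r + 1) (Cmd.rep n c)) 0
          (k * tc) s with hs1
        obtain ⟨d1, d2, d3⟩ := ih s1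
        rw [Function.iterate_succ_apply']
        have e3 : (s1.1 (r + 1), s1.2) =
            (sem w p m (VV w p m bs body r) (r + 1) c)^[k] (s.1 (r + 1), s.2) := by
          rw [k1, k2]
        rw [e3] at d1 d2
        exact ⟨d1, d2, fun q hq => by rw [d3 q hq, k3 q hq]⟩
    exact key (n w p) s
  | call i j =>
    intro s
    set t := Tot w p body r with ht
    set f := mu w p m t (MU w p m bs body r) (r + 1) (Cmd.call i j) with hf
    set s1 : FS := setL s r (ini (s.1 (r + 1) i)) with hs1
    set s2 : FS := runs (MU w p m bs body r) 0 t s1 with hs2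
    have e : runs f 0 (tm w p t (Cmd.call i j)) s =
        setL s2 (r + 1) (Function.update (s2.1 (r + 1)) j (s2.1 r 1 % p 0)) := by
      show f (0 + (t + 1)) (runs f 0 (t + 1) s) = _
      have e1 : runs f 0 (t + 1) s = s2 := by
        rw [Nat.add_comm t 1, runs_add]
        have e0 : runs f 0 1 s = s1 := rfl
        rw [e0, hs2]
        apply runs_congr
        intro k hk s
        show (if 0 + 1 + k = 0 then _ else if 0 + 1 + k ≤ t then _ else _) = _
        rw [if_neg (by omega), if_pos (by omega)]
        have e2 : 0 + 1 + k - 1 = 0 + k := by omega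
        rw [e2]
      rw [e1]
      show (if 0 + (t + 1) = 0 then _ else if 0 + (t + 1) ≤ t then _ else _) = _
      rw [if_neg (by omega), if_neg (by omega)]
      rfl
    obtain ⟨a1, a2, a3⟩ := hA (s.1 (r + 1) i) s1 (by simp [hs1, setL])
    rw [← ht, ← hs2] at a1 a2 a3
    have e12 : s1.2 = s.2 := rfl
    have e11 : s1.1 (r + 1) = s.1 (r + 1) := by
      simp [hs1, setL]
    rw [e]
    refine ⟨?_, ?_, ?_⟩
    · have h1 : (setL s2 (r + 1) (Function.update (s2.1 (r + 1)) j (s2.1 r 1 % p 0))).1 (r + 1)
          = Function.update (s2.1 (r + 1)) j (s2.1 r 1 % p 0) := by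
        simp [setL]
      rw [h1, a3 (r + 1) (by omega), e11, a1, e12]
      rfl
    · have h1 : (setL s2 (r + 1) (Function.update (s2.1 (r + 1)) j (s2.1 r 1 % p 0))).2
          = s2.2 := rfl
      rw [h1, a2, e12]
      rfl
    · intro q hq
      have h1 : (setL s2 (r + 1) (Function.update (s2.1 (r + 1)) j (s2.1 r 1 % p 0))).1 q
          = s2.1 q := by
        simp [setL, Function.update_of_ne (show q ≠ r + 1 by omega)]
      rw [h1, a3 q (by omega)]
      simp [hs1, setL, Function.update_of_ne (show q ≠ r by omega)]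

private theorem clA {α : Type} (w : List α) (p : ℕ → ℕ) (m : ℕ) (bs : VF α) (body : Cmd α)
    (r : ℕ) : ClA w p m bs body r := by
  induction r with
  | zero =>
    intro x s hs
    have e : runs (MU w p m bs body 0) 0 (Tot w p body 0) s =
        setL s 0 (Function.update (s.1 0) 1 (bs w (scons (s.1 0 0) p) % p 0)) := rfl
    rw [e]
    refine ⟨?_, rfl, ?_⟩
    · simp [setL, hs, VV, ini]
    · intro q hq
      simp [setL, Function.update_of_ne (show q ≠ 0 by omega)]
  | succ r ih =>
    intro x s hs
    obtain ⟨h1, h2, h3⟩ := clB w p m bs body r ih body s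
    rw [hs] at h1 h2
    exact ⟨congrFun h1 1, h2, h3⟩

theorem mF1 : StF1 := by
  intro α w p m bs body R x s hs
  obtain ⟨h1, h2, _⟩ := clA w p m bs body R x s hs
  exact ⟨h1, h2⟩

end Pool.Agent.Helper71.DC
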